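import Mathlib

set_option autoImplicit false

namespace X190.RS

universe u v

/-- the right strong rank condition -/
def RSRC (A : Type u) [Ring A] : Prop :=
  ∀ n : ℕ, 0 < n → ∀ f : (Fin (n + 1) → A) →ₗ[Aᵐᵒᵖ] (Fin n → A), ¬ Function.Injective f

/-- `S` is exhausted by a filtration `F`, `F i * F j ⊆ F (i + j)`, and `F k` is contained in a
right `R`-module with `g k` generators, where `g` grows subexponentially. -/
structure Subexp {R : Type u} {S : Type v} [Ring R] [Ring S] (ι : R →+* S)
    (F : ℕ → AddSubgroup S) (g : ℕ → ℕ) : Prop where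
  mono : Monotone F
  one_mem : (1 : S) ∈ F 0
  mul_mem : ∀ i j : ℕ, ∀ a ∈ F i, ∀ b ∈ F j, a * b ∈ F (i + j)
  exhaust : ∀ a : S, ∃ i, a ∈ F i
  gen : ∀ k : ℕ, ∃ c : Fin (g k) → S, ∀ a ∈ F k, ∃ r : Fin (g k) → R, a = ∑ l, c l * ι (r l)
  growth : ∀ n d : ℕ, 0 < n → ∃ k : ℕ, g (k * d) * n ^ k < (n + 1) ^ k

section

variable {R : Type u} [Ring R]

lemma RSRC.nontrivial (h : RSRC R) : Nontrivial R := by
  by_contra hc
  rw [not_nontrivial_iff_subsingleton] at hc
  exact h 1 one_pos 0 (fun _ _ _ => Subsingleton.elim _ _)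

/-- the right strong rank condition for arbitrary finite index types -/
lemma RSRC.types (h : RSRC R) {α β : Type} [Fintype α] [Fintype β]
    (hc : Fintype.card β < Fintype.card α) (f : (α → R) →ₗ[Rᵐᵒᵖ] (β → R)) :
    ¬ Function.Injective f := by
  classical
  intro hf
  have hnt := h.nontrivial
  by_cases hβ : Fintype.card β = 0
  · have hβe : IsEmpty β := Fintype.card_eq_zero_iff.mp hβ
    have hα : Nonempty α := Fintype.card_pos_iff.mp (by omega)
    have h1 : (fun _ => 1 : α → R) = 0 := hf (Subsingleton.elim _ _)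
    exact one_ne_zero (congrFun h1 hα.some)
  · have hpos : 0 < Fintype.card β := Nat.pos_of_ne_zero hβ
    -- a surjection `α → Fin (card β + 1)`
    have e : Fin (Fintype.card β + 1) ↪ α :=
      (Function.Embedding.nonempty_of_card_le (by simpa using hc)).some
    obtain ⟨q, hq⟩ : ∃ q : α → Fin (Fintype.card β + 1), Function.Surjective q :=
      ⟨Function.invFun e, Function.invFun_surjective e.injective⟩
    refine h _ hpos ((LinearEquiv.funCongrLeft Rᵐᵒᵖ R (Fintype.equivFin β).symm).toLinearMap ∘ₗ
      f ∘ₗ LinearMap.funLeft Rᵐᵒᵖ R q) ?_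
    rw [LinearMap.coe_comp, LinearMap.coe_comp]
    refine Function.Injective.comp (LinearEquiv.injective _) (Function.Injective.comp hf ?_)
    exact LinearMap.funLeft_injective_of_surjective _ _ _ hq

end

section

variable {R : Type u} {S : Type v} [Ring R] [Ring S]

/-- the matrix of a homomorphism of right modules -/
lemma exists_matrix {n m : ℕ} (f : (Fin n → S) →ₗ[Sᵐᵒᵖ] (Fin m → S)) :
    ∃ A : Fin m → Fin n → S, ∀ v i, f v i = ∑ j, A i j * v j := by
  classical
  refine ⟨fun i j => f (Pi.single j 1) i, fun v i => ?_⟩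
  have hv : v = ∑ j, (MulOpposite.op (v j)) • (Pi.single j (1 : S) : Fin n → S) := by
    funext l
    rw [Finset.sum_apply]
    simp only [Pi.smul_apply, MulOpposite.smul_eq_mul_unop, MulOpposite.unop_op]
    rw [Finset.sum_eq_single l]
    · simp
    · intro b _ hb
      rw [Pi.single_eq_of_ne (Ne.symm hb), zero_mul]
    · intro hl
      exact absurd (Finset.mem_univ l) hl
  conv_lhs => rw [hv]
  rw [map_sum, Finset.sum_apply]
  refine Finset.sum_congr rfl fun j _ => ?_
  rw [map_smul]
  rfl

/-- iterating an injective matrix -/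
lemma iterate_matrix {F : ℕ → AddSubgroup S} (h1 : (1 : S) ∈ F 0)
    (hmul : ∀ i j : ℕ, ∀ a ∈ F i, ∀ b ∈ F j, a * b ∈ F (i + j)) {n d : ℕ}
    (A : Fin n → Fin (n + 1) → S) (hA : ∀ i j, A i j ∈ F d)
    (hinj : ∀ v : Fin (n + 1) → S, (∀ i, ∑ j, A i j * v j = 0) → v = 0) (k : ℕ) :
    ∃ (α β : Type) (_ : Fintype α) (_ : Fintype β) (K : β → α → S),
      Fintype.card α = (n + 1) ^ k ∧ Fintype.card β = n ^ k ∧ (∀ i j, K i j ∈ F (k * d)) ∧
      ∀ v : α → S, (∀ i, ∑ j, K i j * v j = 0) → v = 0 := by
  induction k with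
  | zero =>
    refine ⟨Unit, Unit, inferInstance, inferInstance, fun _ _ => 1, by simp, by simp,
      fun _ _ => by simpa using h1, fun v hv => ?_⟩
    funext j
    have := hv ()
    simpa using this
  | succ k ih =>
    obtain ⟨α, β, iα, iβ, K, cα, cβ, hK, hKi⟩ := ih
    refine ⟨Fin (n + 1) × α, Fin n × β, inferInstance, inferInstance,
      fun i j => A i.1 j.1 * K i.2 j.2, ?_, ?_, ?_, ?_⟩
    · rw [Fintype.card_prod, Fintype.card_fin, cα, pow_succ, mul_comm]
    · rw [Fintype.card_prod, Fintype.card_fin, cβ, pow_succ, mul_comm]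
    · intro i j
      have := hmul d (k * d) _ (hA i.1 j.1) _ (hK i.2 j.2)
      have e : d + k * d = (k + 1) * d := by ring
      rwa [e] at this
    · intro v hv
      have key : ∀ i : β, (fun j0 : Fin (n + 1) => ∑ j : α, K i j * v (j0, j)) = 0 := by
        intro i
        apply hinj
        intro i0
        rw [← hv (i0, i), Fintype.sum_prod_type]
        refine Finset.sum_congr rfl fun j0 _ => ?_
        rw [Finset.mul_sum]
        exact Finset.sum_congr rfl fun j _ => (mul_assoc _ _ _).symm
      funext p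
      obtain ⟨j0, j⟩ := p
      have h2 : (fun j : α => v (j0, j)) = 0 := hKi _ fun i => congrFun (key i) j0
      exact congrFun h2 j

/-- **Main theorem**: the right strong rank condition passes to extensions of subexponential
right growth. -/
theorem rsrc_of_subexp {ι : R →+* S} (hι : Function.Injective ι) {F : ℕ → AddSubgroup S}
    {g : ℕ → ℕ} (hF : Subexp ι F g) (hR : RSRC R) : RSRC S := by
  intro n hn f hf
  obtain ⟨A, hA⟩ := exists_matrix f
  -- a common degree for the entries
  obtain ⟨d, hd⟩ : ∃ d, ∀ i j, A i j ∈ F d := by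
    choose e he using fun p : Fin n × Fin (n + 1) => hF.exhaust (A p.1 p.2)
    refine ⟨∑ p, e p, fun i j => ?_⟩
    exact hF.mono (Finset.single_le_sum (f := e) (fun _ _ => Nat.zero_le _)
      (Finset.mem_univ (i, j))) (he (i, j))
  have hinj : ∀ v : Fin (n + 1) → S, (∀ i, ∑ j, A i j * v j = 0) → v = 0 := by
    intro v hv
    apply hf
    rw [map_zero]
    funext i
    rw [hA, hv]
    rfl
  obtain ⟨k, hk⟩ := hF.growth n d hn
  obtain ⟨α, β, iα, iβ, K, cα, cβ, hK, hKi⟩ := iterate_matrix hF.one_mem hF.mul_mem A hd hinj k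
  obtain ⟨c, hc⟩ := hF.gen (k * d)
  choose B hB using fun p : β × α => hc _ (hK p.1 p.2)
  -- the coefficient map
  let D : (α → R) →ₗ[Rᵐᵒᵖ] (Fin (g (k * d)) × β → R) :=
    { toFun := fun v p => ∑ j, B (p.2, j) p.1 * v j
      map_add' := fun v w => by
        funext p
        simp only [Pi.add_apply, mul_add, Finset.sum_add_distrib]
      map_smul' := fun r v => by
        funext p
        simp only [Pi.smul_apply, MulOpposite.smul_eq_mul_unop, RingHom.id_apply, Finset.sum_mul,
          mul_assoc] }
  have hD : Function.Injective D := by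
    rw [injective_iff_map_eq_zero]
    intro v hv
    have h1 : (fun j => ι (v j)) = 0 := by
      apply hKi
      intro i
      calc ∑ j, K i j * ι (v j) = ∑ j, ∑ l, c l * ι (B (i, j) l * v j) := by
            refine Finset.sum_congr rfl fun j _ => ?_
            have := hB (i, j)
            simp only at this
            rw [this, Finset.sum_mul]
            refine Finset.sum_congr rfl fun l _ => ?_
            rw [map_mul, mul_assoc]
        _ = ∑ l, c l * ι (∑ j, B (i, j) l * v j) := by
            rw [Finset.sum_comm]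
            refine Finset.sum_congr rfl fun l _ => ?_
            rw [map_sum, Finset.mul_sum]
        _ = 0 := by
            refine Finset.sum_eq_zero fun l _ => ?_
            have := congrFun hv (l, i)
            change (∑ j, B (i, j) l * v j) = 0 at this
            rw [this, map_zero, mul_zero]
    funext j
    have := congrFun h1 j
    exact hι (by simpa using this)
  refine hR.types ?_ D hD
  rw [Fintype.card_prod, Fintype.card_fin, cα, cβ]
  exact hk

/-- linear growth is subexponential -/
lemma linear_growth (n d : ℕ) (hn : 0 < n) : ∃ k : ℕ, (k * d + 1) * n ^ k < (n + 1) ^ k := by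
  have hr0 : (0 : ℝ) ≤ (n : ℝ) / (n + 1) := by positivity
  have hr1 : (n : ℝ) / (n + 1) < 1 := by
    rw [div_lt_one (by positivity)]
    linarith
  have habs : |(n : ℝ) / (n + 1)| < 1 := by rwa [abs_of_nonneg hr0]
  have t1 := (tendsto_self_mul_const_pow_of_abs_lt_one habs).const_mul (d : ℝ)
  have t2 := tendsto_pow_atTop_nhds_zero_of_abs_lt_one habs
  have t3 := t1.add t2
  rw [mul_zero, add_zero] at t3
  obtain ⟨k, hk⟩ := (t3.eventually (gt_mem_nhds (zero_lt_one' ℝ))).exists
  refine ⟨k, ?_⟩
  have hpos : (0 : ℝ) < ((n : ℝ) + 1) ^ k := by positivity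
  have h2 : ((k : ℝ) * d + 1) * (n : ℝ) ^ k < ((n : ℝ) + 1) ^ k := by
    rw [div_pow] at hk
    have h3 : ((k : ℝ) * d + 1) * ((n : ℝ) ^ k / ((n : ℝ) + 1) ^ k) < 1 := by
      linarith
    rw [← mul_div_assoc, div_lt_one hpos] at h3
    exact h3
  exact_mod_cast h2

end

end X190.RS
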