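import Mathlib
import Pool.Agent.X190.RS.Growth

set_option autoImplicit false

namespace X190.RS

universe u v

open Finset

section

variable {R : Type u} {S : Type v} [Ring R] [Ring S]

/-- the sums `∑_{i ≤ k} x^i r_i` -/
def Fx (ι : R →+* S) (x : S) (k : ℕ) : AddSubgroup S where
  carrier := {s | ∃ c : ℕ → R, s = ∑ i ∈ range (k + 1), x ^ i * ι (c i)}
  zero_mem' := ⟨0, by simp⟩
  add_mem' := by
    rintro a b ⟨c, rfl⟩ ⟨d, rfl⟩
    refine ⟨c + d, ?_⟩
    rw [← sum_add_distrib]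
    exact sum_congr rfl fun i _ => by rw [Pi.add_apply, map_add, mul_add]
  neg_mem' := by
    rintro a ⟨c, rfl⟩
    refine ⟨-c, ?_⟩
    rw [← sum_neg_distrib]
    exact sum_congr rfl fun i _ => by rw [Pi.neg_apply, map_neg, mul_neg]

lemma mem_Fx {ι : R →+* S} {x : S} {k : ℕ} {s : S} :
    s ∈ Fx ι x k ↔ ∃ c : ℕ → R, s = ∑ i ∈ range (k + 1), x ^ i * ι (c i) := Iff.rfl

lemma pow_mul_mem (ι : R →+* S) (x : S) {i k : ℕ} (h : i ≤ k) (r : R) :
    x ^ i * ι r ∈ Fx ι x k := by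
  classical
  refine ⟨fun j => if j = i then r else 0, ?_⟩
  rw [sum_eq_single i]
  · simp
  · intro b _ hb
    simp [hb]
  · intro hi
    exact absurd (mem_range.mpr (by omega)) hi

lemma Fx_mono (ι : R →+* S) (x : S) : Monotone (Fx ι x) := by
  rintro i j hij s ⟨c, rfl⟩
  exact AddSubgroup.sum_mem _ fun l hl => pow_mul_mem ι x (by have := mem_range.mp hl; omega) _

lemma x_mul_mem (ι : R →+* S) (x : S) {k : ℕ} {s : S} (h : s ∈ Fx ι x k) :
    x * s ∈ Fx ι x (k + 1) := by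
  obtain ⟨c, rfl⟩ := h
  rw [mul_sum]
  refine AddSubgroup.sum_mem _ fun l hl => ?_
  rw [← mul_assoc, ← pow_succ']
  exact pow_mul_mem ι x (by have := mem_range.mp hl; omega) _

lemma pow_mul_mem' (ι : R →+* S) (x : S) {k : ℕ} {s : S} (h : s ∈ Fx ι x k) (i : ℕ) :
    x ^ i * s ∈ Fx ι x (i + k) := by
  induction i with
  | zero => simpa using h
  | succ i ih =>
    rw [pow_succ', mul_assoc]
    have := x_mul_mem ι x ih
    have e : i + k + 1 = i + 1 + k := by ring
    rwa [e] at this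

lemma mul_mem_right (ι : R →+* S) (x : S) {k : ℕ} {s : S} (h : s ∈ Fx ι x k) (r : R) :
    s * ι r ∈ Fx ι x k := by
  obtain ⟨c, rfl⟩ := h
  refine ⟨fun i => c i * r, ?_⟩
  rw [sum_mul]
  exact sum_congr rfl fun i _ => by rw [map_mul, mul_assoc]

/-- for surjective `σ` left polynomials are right polynomials -/
lemma coeff_mul_pow_mem {σ : R →+* R} {δ : R → R} {ι : R →+* S} {x : S}
    (hσ : Function.Surjective σ) (hx : ∀ r, x * ι r = ι (σ r) * x + ι (δ r)) (b : ℕ) :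
    ∀ r : R, ι r * x ^ b ∈ Fx ι x b := by
  induction b with
  | zero =>
    intro r
    have := pow_mul_mem ι x (le_refl 0) r
    simpa using this
  | succ b ih =>
    intro r
    obtain ⟨r', rfl⟩ := hσ r
    have e : ι (σ r') * x ^ (b + 1) = x * (ι r' * x ^ b) - ι (δ r') * x ^ b := by
      have h1 : ι (σ r') * x = x * ι r' - ι (δ r') := by rw [hx r', add_sub_cancel_right]
      rw [pow_succ', ← mul_assoc, h1, sub_mul, mul_assoc]
    rw [e]
    exact AddSubgroup.sub_mem _ (x_mul_mem ι x (ih r'))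
      (Fx_mono ι x (Nat.le_succ b) (ih (δ r')))

lemma mul_mem_Fx {σ : R →+* R} {δ : R → R} {ι : R →+* S} {x : S}
    (hσ : Function.Surjective σ) (hx : ∀ r, x * ι r = ι (σ r) * x + ι (δ r)) (i j : ℕ) (a : S)
    (ha : a ∈ Fx ι x i) (b : S) (hb : b ∈ Fx ι x j) : a * b ∈ Fx ι x (i + j) := by
  obtain ⟨c, rfl⟩ := ha
  obtain ⟨d, rfl⟩ := hb
  rw [sum_mul_sum]
  refine AddSubgroup.sum_mem _ fun p hp => AddSubgroup.sum_mem _ fun q hq => ?_
  have h1 : ι (c p) * x ^ q ∈ Fx ι x q := coeff_mul_pow_mem hσ hx q (c p)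
  have h2 : x ^ p * (ι (c p) * x ^ q) ∈ Fx ι x (p + q) := pow_mul_mem' ι x h1 p
  have h3 : x ^ p * (ι (c p) * x ^ q) * ι (d q) ∈ Fx ι x (p + q) := mul_mem_right ι x h2 _
  have e : x ^ p * ι (c p) * (x ^ q * ι (d q)) = x ^ p * (ι (c p) * x ^ q) * ι (d q) := by
    simp only [mul_assoc]
  rw [e]
  refine Fx_mono ι x ?_ h3
  have := mem_range.mp hp
  have := mem_range.mp hq
  omega

/-- the filtration by right degree is subexponential -/
lemma subexp_of_rel {σ : R →+* R} {δ : R → R} {ι : R →+* S} {x : S}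
    (hσ : Function.Surjective σ) (hx : ∀ r, x * ι r = ι (σ r) * x + ι (δ r))
    (hgen : ∀ s : S, ∃ f : ℕ →₀ R, f.sum (fun i r => ι r * x ^ i) = s) :
    Subexp ι (Fx ι x) (fun k => k + 1) where
  mono := Fx_mono ι x
  one_mem := by simpa using pow_mul_mem ι x (le_refl 0) 1
  mul_mem := mul_mem_Fx hσ hx
  exhaust := by
    intro s
    obtain ⟨f, rfl⟩ := hgen s
    refine ⟨∑ i ∈ f.support, i, AddSubgroup.sum_mem _ fun i hi => ?_⟩
    exact Fx_mono ι x (single_le_sum (f := fun i => i) (fun _ _ => Nat.zero_le _) hi)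
      (coeff_mul_pow_mem hσ hx i _)
  gen := by
    intro k
    refine ⟨fun l => x ^ (l : ℕ), ?_⟩
    rintro a ⟨c, rfl⟩
    exact ⟨fun l => c l, Finset.sum_range (fun i => x ^ i * ι (c i))⟩
  growth := fun n d hn => linear_growth n d hn

end

end X190.RS
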